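import Pool.Agent.H190.MQ7

/-!
# Morrey's problem for `W(F) = Q(F) + L(F) + f(ΛF, det F)` on real `2 × 2` matrices, `ΛF` a column
# or a row

`Q` is an arbitrary quadratic form, `L` a linear form, `ΛF = F n` for a vector `n` (for instance the
first column of `F`) or `ΛF = Fᵀ m` for a vector `m` (for instance the first row), and `f` is an
arbitrary function of the vector `ΛF` and of the determinant.  Every rank-one convex function of
this form is quasiconvex; if `Q = 0` it is polyconvex.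

Proof outline (`Pool/Agent/H190/MQ1.lean` to `MQ7.lean`).  Let `ΛF = c` be the first column.  For
linearly independent `c₁, c₂` and for every rank-one `H` with `ΛH = c₂ - c₁` the second column of
`F` can be chosen so that `ΛF = c₁` and `det F`, `det (F + H)` have prescribed values `δ₁`, `δ₂`.
Rank-one convexity therefore gives the decoupled inequality
`f(c_t, (1-t) δ₁ + t δ₂) ≤ (1-t) f(c₁, δ₁) + t f(c₂, δ₂) + t (1-t) Q(H)`, first for independent,
then by continuity for all nonzero `c₁, c₂, c_t`.  So `f(c, ·)` is convex, and for a subgradient `k`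
of `f(c₀, ·)` at `δ₀` the function `h(c) = inf_δ (f(c, δ) - k δ)` is finite, extends to `c = 0`, and
`T(F) = Q(F) + k det F + h(ΛF)` is rank-one convex, `T ≤ W - L`, with equality where `ΛF = c₀`,
`det F = δ₀`.  Functions of the form of `T` (an arbitrary function of one column or row plus a
quadratic form) are quasiconvex by an earlier theorem of the library (heat flow and one null
Lagrangian with a variable coefficient; files `Q82/MD` of the run 3997aac3), so `W` is quasiconvex.
-/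

set_option autoImplicit false

open Matrix

namespace Pool.Agent.Results.MP_515557_an.ColumnAndDeterminant

/-- Convexity on the segments in rank-one directions. -/
def RankOneConvex (W : Matrix (Fin 2) (Fin 2) ℝ → ℝ) : Prop :=
  ∀ F H : Matrix (Fin 2) (Fin 2) ℝ, H.rank = 1 → ∀ t : ℝ, 0 ≤ t → t ≤ 1 →
    W ((1 - t) • F + t • (F + H)) ≤ (1 - t) * W F + t * W (F + H)

/-- The inequality of quasiconvexity at all matrices, for all bounded open sets `Ω` and all
Lipschitz maps `ϑ` vanishing off `Ω`. -/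
def Quasiconvex (W : Matrix (Fin 2) (Fin 2) ℝ → ℝ) : Prop :=
  ∀ F₀ : Matrix (Fin 2) (Fin 2) ℝ, ∀ Ω : Set (Fin 2 → ℝ),
    IsOpen Ω → Bornology.IsBounded Ω →
    ∀ ϑ : (Fin 2 → ℝ) → (Fin 2 → ℝ), (∃ K, LipschitzWith K ϑ) →
      (∀ x, x ∉ Ω → ϑ x = 0) →
      W F₀ * (MeasureTheory.volume Ω).toReal ≤
        ∫ x in Ω, W (F₀ + LinearMap.toMatrix'
          ((fderiv ℝ ϑ x : (Fin 2 → ℝ) →L[ℝ] (Fin 2 → ℝ)) :
            (Fin 2 → ℝ) →ₗ[ℝ] (Fin 2 → ℝ)))

/-- `W(F) = P(F, det F)` for a real-valued convex function `P`. -/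
def Polyconvex (W : Matrix (Fin 2) (Fin 2) ℝ → ℝ) : Prop :=
  ∃ P : Matrix (Fin 2) (Fin 2) ℝ × ℝ → ℝ, ConvexOn ℝ Set.univ P ∧ ∀ F, W F = P (F, F.det)

/-- Let `ΛF = F n` for a vector `n`, or `ΛF = Fᵀ m` for a vector `m`.  Every rank-one convex
function `W(F) = Q(F) + L(F) + f(ΛF, det F)` of a real `2 × 2` matrix, with a quadratic form `Q`, a
linear form `L` and an arbitrary function `f`, is quasiconvex, and it is polyconvex if `Q = 0`. -/
theorem result (Λ : Matrix (Fin 2) (Fin 2) ℝ → (Fin 2 → ℝ))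
    (hΛ : (∃ n : Fin 2 → ℝ, ∀ F, Λ F = F *ᵥ n) ∨ (∃ m : Fin 2 → ℝ, ∀ F, Λ F = Fᵀ *ᵥ m))
    (Q : QuadraticForm ℝ (Matrix (Fin 2) (Fin 2) ℝ)) (L : Matrix (Fin 2) (Fin 2) ℝ →ₗ[ℝ] ℝ)
    (f : (Fin 2 → ℝ) → ℝ → ℝ)
    (hW : RankOneConvex (fun F => Q F + L F + f (Λ F) F.det)) :
    Quasiconvex (fun F => Q F + L F + f (Λ F) F.det) ∧
      (Q = 0 → Polyconvex (fun F => Q F + L F + f (Λ F) F.det)) := by
  have h1 : Pool.Agent.Helper188.Morrey.RankOneConvex (fun F => Q F + f (Λ F) F.det) := by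
    have h2 := H190.MQ.roc_add_lin (W := fun F => Q F + L F + f (Λ F) F.det) hW (-L)
    have e : (fun F : Matrix (Fin 2) (Fin 2) ℝ => Q F + L F + f (Λ F) F.det + (-L) F)
        = fun F => Q F + f (Λ F) F.det := by
      funext F; simp only [LinearMap.neg_apply]; ring
    rwa [e] at h2
  have e : (fun F : Matrix (Fin 2) (Fin 2) ℝ => Q F + L F + f (Λ F) F.det)
      = fun F => (fun F => Q F + f (Λ F) F.det) F + L F := by
    funext F; ring
  rw [e]
  rcases hΛ with ⟨n, hn⟩ | ⟨m, hm⟩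
  · obtain rfl : Λ = fun F => F *ᵥ n := funext hn
    refine ⟨H190.MQ.qc_add_lin h1.continuous (H190.MQ.qc_col n Q f h1) L, fun hQ => ?_⟩
    subst hQ
    have e0 : (fun F : Matrix (Fin 2) (Fin 2) ℝ =>
        (0 : QuadraticForm ℝ (Matrix (Fin 2) (Fin 2) ℝ)) F + f (F *ᵥ n) F.det)
        = fun F => f (F *ᵥ n) F.det := by
      funext F; simp
    simp only at h1
    rw [e0] at h1 ⊢
    exact H190.MQ.pc_add_lin (H190.MQ.pc_col n f h1) L
  · obtain rfl : Λ = fun F => Fᵀ *ᵥ m := funext hm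
    have h3 : Pool.Agent.Helper188.Morrey.RankOneConvex
        (fun F : Matrix (Fin 2) (Fin 2) ℝ => Q F + f (Matrix.vecMul m F) F.det) := by
      have e0 : (fun F : Matrix (Fin 2) (Fin 2) ℝ => Q F + f (Matrix.vecMul m F) F.det)
          = fun F => Q F + f (Fᵀ *ᵥ m) F.det := by
        funext F; rw [Matrix.mulVec_transpose]
      rw [e0]; exact h1
    refine ⟨?_, fun hQ => ?_⟩
    · refine H190.MQ.qc_add_lin h1.continuous ?_ L
      have h4 := H190.MQ.qc_row m Q f h3
      have e0 : (fun F : Matrix (Fin 2) (Fin 2) ℝ => Q F + f (Matrix.vecMul m F) F.det)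
          = fun F => Q F + f (Fᵀ *ᵥ m) F.det := by
        funext F; rw [Matrix.mulVec_transpose]
      rwa [e0] at h4
    · subst hQ
      have e0 : (fun F : Matrix (Fin 2) (Fin 2) ℝ =>
          (0 : QuadraticForm ℝ (Matrix (Fin 2) (Fin 2) ℝ)) F + f (Fᵀ *ᵥ m) F.det)
          = fun F => f (Fᵀ *ᵥ m) F.det := by
        funext F; simp
      simp only at h1
      rw [e0] at h1 ⊢
      exact H190.MQ.pc_add_lin (H190.MQ.pc_row m f h1) L

end Pool.Agent.Results.MP_515557_an.ColumnAndDeterminant
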