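import Pool.Agent.H190.MQ6

/-!
# Rank-one convex functions `W(F) = Q(F) + L(F) + f(ℓ(F), det F)` are polyconvex

`Q` is an arbitrary quadratic form, `L` and `ℓ` are arbitrary linear functionals of the real
`2 × 2` matrix `F`, and `f` is an arbitrary function of two real variables.  Example: all functions
`f(tr F, det F)`, that is, all functions which are invariant under `F ↦ P F P⁻¹` and continuous,
and their sums with quadratic forms.

Proof outline (`Pool/Agent/H190/MQ5.lean`, `MQ6.lean`).  Let `H` be of rank one with `ℓ(H) ≠ 0`.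
The determinant, restricted to the plane `{K : ℓ(K) = 0, cof H : K = 0}`, is indefinite, so that
there is `F` with prescribed values of `ℓ(F)`, `det F` and `det (F + H)`.  Rank-one convexity then
says that `f(x, δ) + q x²` is jointly convex, `q` the infimum of `Q(H)` over the rank-one `H` with
`ℓ(H) = 1`; `Q - q ℓ²` is nonnegative on rank-one matrices, so `Q - q ℓ² + c det ≥ 0` for some `c`
(S-lemma), and `P(F, δ) = (Q - q ℓ² + c det)(F) - c δ + (f(ℓ(F), δ) + q ℓ(F)²) + L(F)` is convex.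
-/

set_option autoImplicit false

open Matrix

namespace Pool.Agent.Results.MP_515557_an.FunctionalAndDeterminant

/-- Convexity on the segments in rank-one directions. -/
def RankOneConvex (W : Matrix (Fin 2) (Fin 2) ℝ → ℝ) : Prop :=
  ∀ F H : Matrix (Fin 2) (Fin 2) ℝ, H.rank = 1 → ∀ t : ℝ, 0 ≤ t → t ≤ 1 →
    W ((1 - t) • F + t • (F + H)) ≤ (1 - t) * W F + t * W (F + H)

/-- The inequality of quasiconvexity at all matrices, for all bounded open sets `Ω` and all
Lipschitz maps `ϑ` vanishing off `Ω`. -/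
def Quasiconvex (W : Matrix (Fin 2) (Fin 2) ℝ → ℝ) : Prop :=
  ∀ F₀ : Matrix (Fin 2) (Fin 2) ℝ, ∀ Ω : Set (Fin 2 → ℝ),
    IsOpen Ω → Bornology.IsBounded Ω →
    ∀ ϑ : (Fin 2 → ℝ) → (Fin 2 → ℝ), (∃ K, LipschitzWith K ϑ) →
      (∀ x, x ∉ Ω → ϑ x = 0) →
      W F₀ * (MeasureTheory.volume Ω).toReal ≤
        ∫ x in Ω, W (F₀ + LinearMap.toMatrix'
          ((fderiv ℝ ϑ x : (Fin 2 → ℝ) →L[ℝ] (Fin 2 → ℝ)) :
            (Fin 2 → ℝ) →ₗ[ℝ] (Fin 2 → ℝ)))

/-- `W(F) = P(F, det F)` for a real-valued convex function `P`. -/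
def Polyconvex (W : Matrix (Fin 2) (Fin 2) ℝ → ℝ) : Prop :=
  ∃ P : Matrix (Fin 2) (Fin 2) ℝ × ℝ → ℝ, ConvexOn ℝ Set.univ P ∧ ∀ F, W F = P (F, F.det)

/-- Every rank-one convex function `W(F) = Q(F) + L(F) + f(ℓ(F), det F)` of a real `2 × 2` matrix,
with a quadratic form `Q`, linear forms `L` and `ℓ` and an arbitrary function `f`, is polyconvex and
quasiconvex. -/
theorem result (Q : QuadraticForm ℝ (Matrix (Fin 2) (Fin 2) ℝ))
    (L ℓ : Matrix (Fin 2) (Fin 2) ℝ →ₗ[ℝ] ℝ) (f : ℝ → ℝ → ℝ)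
    (hW : RankOneConvex (fun F => Q F + L F + f (ℓ F) F.det)) :
    Polyconvex (fun F => Q F + L F + f (ℓ F) F.det) ∧
      Quasiconvex (fun F => Q F + L F + f (ℓ F) F.det) := by
  have h := H190.MQ.pc_of_roc Q L ℓ f hW
  exact ⟨h, H190.MQ.qc_of_pc h⟩

end Pool.Agent.Results.MP_515557_an.FunctionalAndDeterminant
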