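import Pool.Agent.H300.SM.Exa

/-!
# A sharp form of Müller's theorem on diagonal matrices

`ψ : ℝ² → ℝ` is of class `M(K)` if it is separately convex, its mixed differences are at most `K`
times the area (`|∂_x ∂_y ψ| ≤ K` if `ψ` is smooth) and the mixed differences are monotone in each
variable (`∂_x ∂_y ψ` is monotone in `x` and monotone in `y`, in any of the four senses).  It is of
class `S(K)` if at every point it has a minorant touching it there which is a finite sum of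
functions of classes `M(K_i)`, `∑ K_i ≤ K`.  `ϑ` is a Lipschitz map of the plane vanishing off the
bounded open set `Ω`.

(1) `∫_Ω ψ(F₁₁ + ∂₁ϑ₁, F₂₂ + ∂₂ϑ₂) ≥ |Ω| ψ(F₁₁, F₂₂) - K ‖∂₂ϑ₁‖ ‖∂₁ϑ₂‖` (norms of `L²(Ω)`) for
all `ψ` of class `S(K)`.  The diagonal entries of the gradient do not enter the error.

(2) The functions `ψ(F₁₁, F₂₂) + p F₁₁² + q F₂₂² + r F₁₂² + s F₂₁²` with `ψ` of class `M(K)` are all
rank-one convex if and only if `K ≤ 2 (√(pq) + √(rs))`, and then they are quasiconvex, even for all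
`ψ` of class `S(K)`.  There is no condition on `p, q, r, s ≥ 0`; e.g. `p = q = 0`.

(3) `S(K)` contains `M(K)` and, if `K = L₁ L₂`, all products `h₁(x) h₂(y)` of nonnegative convex
functions with Lipschitz constants `L₁`, `L₂`; e.g. `|F₁₁| |F₂₂| + (F₁₂² + F₂₁²) / 2` is
quasiconvex.

(4) The functions in (2) need not be polyconvex for `p = q = 0`.

Proof: one row of the map is projected, on each line, onto the maps with slopes `≥ -a`; the projection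
does not increase the off-diagonal derivative and the determinant is a null Lagrangian.  This gives
`(x + a)⁺ (y + b)⁺`; a function of class `M(K)` is supported by a mixture of such functions.
-/

set_option autoImplicit false

namespace Pool.Agent.Results.MP_515557_an.SharpMueller

open MeasureTheory Set

/-- rank-one convexity -/
def RankOneConvex (W : Matrix (Fin 2) (Fin 2) ℝ → ℝ) : Prop :=
  ∀ F H : Matrix (Fin 2) (Fin 2) ℝ, H.rank = 1 → ∀ t : ℝ, 0 ≤ t → t ≤ 1 →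
    W ((1 - t) • F + t • (F + H)) ≤ (1 - t) * W F + t * W (F + H)

/-- the gradient of a map of the plane, `grad ϑ x i j = ∂_j ϑ_i (x)` -/
noncomputable def grad (ϑ : (Fin 2 → ℝ) → (Fin 2 → ℝ)) (x : Fin 2 → ℝ) :
    Matrix (Fin 2) (Fin 2) ℝ :=
  LinearMap.toMatrix' ((fderiv ℝ ϑ x : (Fin 2 → ℝ) →L[ℝ] (Fin 2 → ℝ)) :
    (Fin 2 → ℝ) →ₗ[ℝ] (Fin 2 → ℝ))

/-- `Ω` is open and bounded, `ϑ` is Lipschitz and vanishes off `Ω` -/
def Test (Ω : Set (Fin 2 → ℝ)) (ϑ : (Fin 2 → ℝ) → (Fin 2 → ℝ)) : Prop :=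
  IsOpen Ω ∧ Bornology.IsBounded Ω ∧ (∃ K, LipschitzWith K ϑ) ∧ ∀ x, x ∉ Ω → ϑ x = 0

/-- quasiconvexity (Morrey) -/
def Quasiconvex (W : Matrix (Fin 2) (Fin 2) ℝ → ℝ) : Prop :=
  ∀ (F₀ : Matrix (Fin 2) (Fin 2) ℝ) (Ω : Set (Fin 2 → ℝ)) (ϑ : (Fin 2 → ℝ) → (Fin 2 → ℝ)),
    Test Ω ϑ → W F₀ * (volume Ω).toReal ≤ ∫ x in Ω, W (F₀ + grad ϑ x)

/-- polyconvexity: `W(F) = P(F, det F)` with a convex `P` with values in `ℝ ∪ {+∞}` -/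
def Polyconvex (W : Matrix (Fin 2) (Fin 2) ℝ → ℝ) : Prop :=
  ∃ P : Matrix (Fin 2) (Fin 2) ℝ × ℝ → EReal, (∀ z, P z ≠ ⊥) ∧
    (∀ x y, ∀ a b : ℝ, 0 < a → 0 < b → a + b = 1 →
      P (a • x + b • y) ≤ (a : EReal) * P x + (b : EReal) * P y) ∧
    ∀ F, (W F : EReal) = P (F, F.det)

/-- separately convex functions -/
def SepConvex (ψ : ℝ → ℝ → ℝ) : Prop :=
  (∀ y, ConvexOn ℝ univ (fun x => ψ x y)) ∧ ∀ x, ConvexOn ℝ univ (ψ x)

/-- the mixed differences are bounded by `K` -/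
def MixedBound (ψ : ℝ → ℝ → ℝ) (K : ℝ) : Prop :=
  ∀ x x' y y', |ψ x' y' - ψ x' y - ψ x y' + ψ x y| ≤ K * |x' - x| * |y' - y|

/-- the class `M(K)`: separately convex, mixed differences bounded by `K` and monotone in each
variable -/
def ClassM (ψ : ℝ → ℝ → ℝ) (K : ℝ) : Prop :=
  SepConvex ψ ∧ MixedBound ψ K ∧
  ((∀ y y', y ≤ y' → ConvexOn ℝ univ (fun x => ψ x y' - ψ x y)) ∨
    (∀ y y', y ≤ y' → ConcaveOn ℝ univ (fun x => ψ x y' - ψ x y))) ∧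
  ((∀ x x', x ≤ x' → ConvexOn ℝ univ (fun y => ψ x' y - ψ x y)) ∨
    (∀ x x', x ≤ x' → ConcaveOn ℝ univ (fun y => ψ x' y - ψ x y)))

/-- the class `S(K)`: at every point there is a minorant touching `ψ` there which is a finite sum of
functions of classes `M(κ_i)`, `∑ κ_i ≤ K` -/
def ClassS (ψ : ℝ → ℝ → ℝ) (K : ℝ) : Prop :=
  ∀ A B : ℝ, ∃ (n : ℕ) (φ : Fin n → ℝ → ℝ → ℝ) (κ : Fin n → ℝ),
    (∀ i, ClassM (φ i) (κ i)) ∧ ∑ i, κ i ≤ K ∧ (∀ x y, ∑ i, φ i x y ≤ ψ x y) ∧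
      ∑ i, φ i A B = ψ A B

/-- the norm of `∂_j ϑ_i` in `L²(Ω)` -/
noncomputable def norm2 (ϑ : (Fin 2 → ℝ) → (Fin 2 → ℝ)) (Ω : Set (Fin 2 → ℝ)) (i j : Fin 2) : ℝ :=
  Real.sqrt (∫ x in Ω, grad ϑ x i j ^ 2)

/-- `ψ(F₁₁, F₂₂) + p F₁₁² + q F₂₂² + r F₁₂² + s F₂₁²` -/
noncomputable def fn (ψ : ℝ → ℝ → ℝ) (p q r s : ℝ) (F : Matrix (Fin 2) (Fin 2) ℝ) : ℝ :=
  ψ (F 0 0) (F 1 1) + (p * F 0 0 ^ 2 + q * F 1 1 ^ 2) + (r * F 0 1 ^ 2 + s * F 1 0 ^ 2)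

theorem qc_iff {W : Matrix (Fin 2) (Fin 2) ℝ → ℝ} (h : Pool.Agent.Q82.MD.Quasiconvex W) :
    Quasiconvex W := fun F₀ Ω ϑ ht => h F₀ Ω ht.1 ht.2.1 ϑ ht.2.2.1 ht.2.2.2

open Pool.Agent.Q246.MM Pool.Agent.H300.SM in
theorem result :
    (∀ (ψ : ℝ → ℝ → ℝ) (K : ℝ), ClassS ψ K →
      ∀ (F₀ : Matrix (Fin 2) (Fin 2) ℝ) (Ω : Set (Fin 2 → ℝ)) (ϑ : (Fin 2 → ℝ) → (Fin 2 → ℝ)),
        Test Ω ϑ → ψ (F₀ 0 0) (F₀ 1 1) * (volume Ω).toReal - K * (norm2 ϑ Ω 0 1 * norm2 ϑ Ω 1 0) ≤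
          ∫ x in Ω, ψ (F₀ 0 0 + grad ϑ x 0 0) (F₀ 1 1 + grad ϑ x 1 1)) ∧
    (∀ K p q r s : ℝ, 0 ≤ K → 0 ≤ p → 0 ≤ q → 0 ≤ r → 0 ≤ s →
      ((∀ ψ : ℝ → ℝ → ℝ, ClassM ψ K → RankOneConvex (fn ψ p q r s)) ↔
        K ≤ 2 * (Real.sqrt (p * q) + Real.sqrt (r * s))) ∧
      (K ≤ 2 * (Real.sqrt (p * q) + Real.sqrt (r * s)) →
        ∀ ψ : ℝ → ℝ → ℝ, ClassS ψ K → Quasiconvex (fn ψ p q r s))) ∧
    (∀ (ψ : ℝ → ℝ → ℝ) (K : ℝ), ClassM ψ K → ClassS ψ K) ∧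
    (∀ (h₁ h₂ : ℝ → ℝ) (L₁ L₂ : ℝ), ConvexOn ℝ univ h₁ → ConvexOn ℝ univ h₂ →
      (∀ x, 0 ≤ h₁ x) → (∀ x, 0 ≤ h₂ x) → (∀ x x', |h₁ x' - h₁ x| ≤ L₁ * |x' - x|) →
      (∀ x x', |h₂ x' - h₂ x| ≤ L₂ * |x' - x|) → ClassS (fun x y => h₁ x * h₂ y) (L₁ * L₂)) ∧
    ∃ ψ : ℝ → ℝ → ℝ, ClassM ψ (1 / 2) ∧ ¬ Polyconvex (fn ψ 0 0 (1 / 4) (1 / 4)) := by
  refine ⟨?_, ?_, ?_, ?_, ?_⟩
  · intro ψ K h F₀ Ω ϑ ht
    have h' : Supp ψ K := h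
    have h1 := Pool.Agent.H300.SM.sharp h_cont h'.nonneg (sep_cont h'.sep) h'.di (F₀ 0 0) (F₀ 1 1)
      (Ω := Ω) (ϑ := ϑ) ht
    exact sub_le_iff_le_add.2 h1
  · intro K p q r s hK hp hq hr hs
    refine ⟨⟨fun h => ?_, fun h ψ h1 => ?_⟩, fun h ψ h1 => ?_⟩
    · by_contra hne
      push Not at hne
      have hc := cl_mul hK
      refine not_roc hp hq hr hs hne (h _ ⟨⟨hc.1, hc.2.1⟩, hc.2.2, Or.inl fun y y' _ => ?_,
        Or.inl fun x x' _ => ?_⟩)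
      · have h0 := cvx_add_lin (convexOn_const (0 : ℝ) convex_univ) (K * (y' - y))
        refine h0.congr fun x _ => ?_
        simp only
        ring
      · have h0 := cvx_add_lin (convexOn_const (0 : ℝ) convex_univ) (K * (x' - x))
        refine h0.congr fun y _ => ?_
        simp only
        ring
    · exact roc_two (ψ := ψ) (K := K) ⟨h1.1.1, h1.1.2, h1.2.1⟩ hp hq hr hs h
    · have h' : Supp ψ K := h1
      exact qc_iff (h'.qc hp hq hr hs h)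
  · intro ψ K h
    exact Mono.supp (ψ := ψ) (K := K) h
  · intro h₁ h₂ L₁ L₂ a b c d e f
    exact supp_prod a b c d e f
  · exact ⟨ex0, mono_ex0, not_poly0⟩

end Pool.Agent.Results.MP_515557_an.SharpMueller
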